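import Pool.Agent.Run7.h200.SS.Defs
import Pool.Agent.Run7.h200.QMain
import Pool.Agent.H914R2.GFrob

/-!
# Group actions and the semisimplicity of an endomorphism
-/

set_option autoImplicit false

open CategoryTheory AlgebraicGeometry Equiv

universe u v

namespace Run7.h200.SS

open Pool.Agent.H914 Pool.Agent.H914.VarClass Pool.Agent.H914.VarClass.Obj
  Pool.Agent.H914.WeilCohomology
open Run7.h200.GR (actW IsQuot)
open Run7.h200.Van Run7.h200.Qr
open Run7.h200.Pr (Criteria Sieve Mono)

variable {k : Type u} [Field k] {𝒱 : VarClass k} {ops : CycleOps 𝒱}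
  {W : WeilCohomology.{u, v} ops} {X Y : 𝒱.Obj} {G : Type} [Group G]

/-- the rational structure -/
noncomputable abbrev ratMod (W : WeilCohomology.{u, v} ops) (X : 𝒱.Obj) : Module ℚ (W.H X) :=
  Module.compHom _ (algebraMap ℚ W.K)

/-- a subspace as a rational subspace -/
noncomputable def rs (W : WeilCohomology.{u, v} ops) (X : 𝒱.Obj) (U : Submodule W.K (W.H X)) :
    @Submodule ℚ (W.H X) _ _ (ratMod W X) :=
  letI := ratMod W X
  { carrier := {x | x ∈ U}
    zero_mem' := U.zero_mem
    add_mem' := fun hx hy => U.add_mem hx hy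
    smul_mem' := fun q _ hx => U.smul_mem (algebraMap ℚ W.K q) hx }

/-- the representation -/
noncomputable def repW (W : WeilCohomology.{u, v} ops) {X : 𝒱.Obj} (a : G →* Aut X) :
    G →* @Module.End ℚ (W.H X) _ _ (ratMod W X) :=
  letI := ratMod W X
  { toFun := fun g =>
      { toFun := fun x => W.map (a g).inv x
        map_add' := fun x y => map_add _ x y
        map_smul' := fun q x => by
          change W.map (a g).inv (algebraMap ℚ W.K q • x) =
            algebraMap ℚ W.K q • W.map (a g).inv x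
          exact map_smul _ _ _ }
    map_one' := by
      refine LinearMap.ext fun x => ?_
      change W.map (a 1).inv x = x
      rw [map_one]
      exact W.map_id X x
    map_mul' := fun g h => by
      refine LinearMap.ext fun x => ?_
      change W.map (a (g * h)).inv x = W.map (a g).inv (W.map (a h).inv x)
      rw [map_mul, ← W.map_comp]
      rfl }

lemma comm_inv {a : G →* Aut X} {φ : X ⟶ X} (h : Commutes a φ) (g : G) :
    (a g).inv ≫ φ = φ ≫ (a g).inv := by
  rw [Iso.inv_comp_eq, ← Category.assoc, h g, Category.assoc, Iso.hom_inv_id, Category.comp_id]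

lemma stableE {a : G →* Aut X} {φ : X ⟶ X} (h : Commutes a φ) (g : G) (y : W.H X)
    (hy : Eig W φ y) : Eig W φ (W.map (a g).inv y) := by
  unfold Eig SumOfEigen at hy ⊢
  induction hy using Submodule.span_induction with
  | mem z hz =>
    obtain ⟨c, hc⟩ := hz
    refine Submodule.subset_span ⟨c, ?_⟩
    change W.map φ (W.map (a g).inv z) = c • W.map (a g).inv z
    have hc' : W.map φ z = c • z := hc
    rw [← W.map_comp, ← comm_inv h g, W.map_comp, hc', map_smul]
  | zero => rw [map_zero]; exact Submodule.zero_mem _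
  | add x y _ _ hx hy => rw [map_add]; exact Submodule.add_mem _ hx hy
  | smul c x _ hx => rw [map_smul]; exact Submodule.smul_mem _ _ hx

lemma eig_bot (a : G →* Aut X) (φ : X ⟶ X) (i : ℕ) :
    InvIn (actW W a) (Deg W i) (Eig W φ) ⊥ ↔ Diag W φ i := by
  constructor
  · intro h x hx
    refine h x hx fun g hg => ?_
    rw [Subgroup.mem_bot] at hg
    rw [hg]
    change W.map (a 1).inv x = x
    rw [map_one]
    exact W.map_id X x
  · intro h x hx _
    exact h x hx

/-- Quotients. -/
lemma eig_quot [Finite G] {a : G →* Aut X} {H : Subgroup G} {f : X ⟶ Y} {φ : X ⟶ X} {ψ : Y ⟶ Y}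
    {i : ℕ} (hf : IsQuot W a H f) (hfφ : f ≫ ψ = φ ≫ f) (hY : Diag W ψ i) :
    InvIn (actW W a) (Deg W i) (Eig W φ) H := by
  classical
  have : Fintype G := Fintype.ofFinite G
  intro y hy hyH
  obtain ⟨hdim, hf⟩ := hf
  have hy' : Deg W i (W.push f y) := by
    have h1 := W.push_mem f hy
    rw [hdim, sub_self, mul_zero, add_zero, grZ_natCast] at h1
    exact h1
  have h1 : W.map f (W.push f y) = (Nat.card H : W.K) • y := by
    rw [hf, finsum_eq_sum_of_fintype, Finset.sum_congr rfl fun h _ => hyH h.1 h.2,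
      Finset.sum_const, Finset.card_univ, Nat.card_eq_fintype_card, Nat.cast_smul_eq_nsmul]
  have hcard : (Nat.card H : W.K) ≠ 0 := Nat.cast_ne_zero.mpr Nat.card_pos.ne'
  have h2 : y = (Nat.card H : W.K)⁻¹ • W.map f (W.push f y) := by
    rw [h1, smul_smul, inv_mul_cancel₀ hcard, one_smul]
  rw [h2]
  unfold Eig SumOfEigen
  refine Submodule.smul_mem _ _ ?_
  have h3 := hY _ hy'
  unfold Eig SumOfEigen at h3
  revert h3
  generalize W.push f y = w
  intro h3
  induction h3 using Submodule.span_induction with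
  | mem z hz =>
    obtain ⟨c, hc⟩ := hz
    refine Submodule.subset_span ⟨c, ?_⟩
    change W.map φ (W.map f z) = c • W.map f z
    have hc' : W.map ψ z = c • z := hc
    rw [← W.map_comp, ← hfφ, W.map_comp, hc', map_smul]
  | zero => rw [map_zero]; exact Submodule.zero_mem _
  | add x y _ _ hx hy => rw [map_add]; exact Submodule.add_mem _ hx hy
  | smul c x _ hx => rw [map_smul]; exact Submodule.smul_mem _ _ hx

/-- **Group actions and semisimplicity.** -/
theorem mainSS [Finite G] (W : WeilCohomology.{u, v} ops) (a : G →* Aut X) {φ : X ⟶ X}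
    (h : Commutes a φ) (i : ℕ) :
    (∀ (H : Subgroup G) (ι : Type) (E : ι → Subgroup G),
      Dom (actW W a) (Deg W i) (Eig W φ) H E →
      (∀ j, InvIn (actW W a) (Deg W i) (Eig W φ) (E j)) →
      InvIn (actW W a) (Deg W i) (Eig W φ) H) ∧
    Criteria (InvIn (actW W a) (Deg W i) (Eig W φ)) ∧
    Sieve (InvIn (actW W a) (Deg W i) (Eig W φ)) ∧
    (∀ (n r : ℕ) (e : Perm (Fin n) →* G), 2 ≤ r → (r - 1) ^ 2 < n →
      (InvIn (actW W a) (Deg W i) (Eig W φ) ⊥ ↔
        InvIn (actW W a) (Deg W i) (Eig W φ) ((symSub n r).map e) ∧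
        AltIn (actW W a) (Deg W i) (Eig W φ) e r)) ∧
    (¬ InvIn (actW W a) (Deg W i) (Eig W φ) ⊥ →
      (∀ D : Subgroup G, (Nat.card D).Prime →
        InvIn (actW W a) (Deg W i) (Eig W φ) D) →
      Fre (actW W a) (Deg W i) (Eig W φ) ∧ CyclicSubgroups G) := by
  letI := ratMod W X
  exact Qr.main (τ := actW W a) (P := Deg W i) (Q := Eig W φ) (ρ := repW W a)
    (U := rs W X (W.gr X i))
    (N := rs W X (Submodule.span W.K {z | ∃ c : W.K, (W.map φ).toLinearMap z = c • z}))
    (fun _ _ => rfl) (fun _ => Iff.rfl) (fun _ => Iff.rfl)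
    (fun g u hu => W.map_mem (a g).inv hu) (fun g u hu => stableE h g u hu)

end Run7.h200.SS
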