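import Pool.Agent.Run7.h200.GR.SignDefs
import Pool.Agent.Run7.h200.QDefs

/-!
# Group actions and the semisimplicity of an endomorphism: definitions
-/

set_option autoImplicit false

open CategoryTheory AlgebraicGeometry

universe u v

namespace Run7.h200.SS

open Pool.Agent.H914 Pool.Agent.H914.VarClass Pool.Agent.H914.VarClass.Obj
  Pool.Agent.H914.WeilCohomology
open Run7.h200.GR (actW)

section Alg

variable {K V : Type*} [Field K] [AddCommGroup V] [Module K V]

/-- The element `y` is a sum of eigenvectors of `F`. -/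
def SumOfEigen (F : V →ₗ[K] V) (y : V) : Prop :=
  y ∈ Submodule.span K {z | ∃ c : K, F z = c • z}

/-- The element `y` lies in `U`. -/
def Lies (U : Submodule K V) (y : V) : Prop := y ∈ U

end Alg

variable {k : Type u} [Field k] {𝒱 : VarClass k} {ops : CycleOps 𝒱}

/-- The class `y` in the cohomology of `X` is a sum of eigenvectors of `φ^*`. -/
def Eig (W : WeilCohomology.{u, v} ops) {X : 𝒱.Obj} (φ : X ⟶ X) (y : W.H X) : Prop :=
  SumOfEigen (W.map φ).toLinearMap y

/-- The class `y` in the cohomology of `X` is of degree `i`. -/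
def Deg (W : WeilCohomology.{u, v} ops) {X : 𝒱.Obj} (i : ℕ) (y : W.H X) : Prop :=
  Lies (W.gr X i) y

/-- The endomorphism `φ^*` of `H^i(X)` is diagonalizable: the eigenvectors generate `H^i(X)`. If the
field of coefficients is algebraically closed, this means that `φ^*` is semisimple. -/
def Diag (W : WeilCohomology.{u, v} ops) {X : 𝒱.Obj} (φ : X ⟶ X) (i : ℕ) : Prop :=
  ∀ y : W.H X, Deg W i y → Eig W φ y

/-- The endomorphism `φ` commutes with the group action. -/
def Commutes {X : 𝒱.Obj} {G : Type} [Group G] (a : G →* Aut X) (φ : X ⟶ X) : Prop :=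
  ∀ g, (a g).hom ≫ φ = φ ≫ (a g).hom

end Run7.h200.SS
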